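import Mathlib
import Pool.Agent.HyperWeil.Defs
import Pool.Agent.HyperWeil.USp
import Pool.Agent.HyperWeil.Bridge

set_option autoImplicit false

/-!
# Odd moments for almost all quadratic twists, in an exponentially long range

Let `C : y^2 = f(x)` be a hyperelliptic curve of genus `g` over `ℚ` and `C_d : d y^2 = f(x)`, that
is `y^2 = d f(x)`, its quadratic twists. For odd `k` and odd `m` the average of `a_{k,p}(C_d)^m`
over the good primes `p ≤ N` is within `ε` of the moment `c_k(m; g)` of `USp(2g)` for *all* `N` in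
the range `N₀ ≤ N ≤ exp (D^θ)`, except for at most `K (D / N₀^A + D^θ)` squarefree `|d| ≤ D`.
-/

namespace Pool.Agent.Results.MP_3da4c4_nt.AlmostAllTwists

open Polynomial Pool.Agent.HyperWeil

theorem result (g : ℕ) (hg : 1 ≤ g) (f : ℤ[X])
    (hdeg : f.natDegree = 2 * g + 1 ∨ f.natDegree = 2 * g + 2)
    (hsep : (f.map (Int.castRingHom ℚ)).Separable)
    (k m : ℕ) (hk : Odd k) (hkg : k ≤ g) (hm : Odd m)
    (ε θ : ℝ) (hε : 0 < ε) (hθ : 0 < θ) (A : ℕ) :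
    ∃ K : ℝ, ∀ D N₀ : ℕ, 1 ≤ D → 1 ≤ N₀ →
      (({d : ℤ | Squarefree d ∧ |d| ≤ D ∧ ∃ N : ℕ, N₀ ≤ N ∧ (N : ℝ) ≤ Real.exp ((D : ℝ) ^ θ) ∧
          ε < ‖(avgMoment (C d * f) k m N : ℂ) - uspMoment g k m‖}).ncard : ℝ)
        ≤ K * (D / (N₀ : ℝ) ^ A + (D : ℝ) ^ θ) :=
  almost_all_twists (by omega) hsep g hk hm hε hθ A

end Pool.Agent.Results.MP_3da4c4_nt.AlmostAllTwists
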