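import Mathlib
import Pool.Agent.HyperWeil.Defs
import Pool.Agent.HyperWeil.USp
import Pool.Agent.ST.JStat2
import Pool.Agent.ST.Scale
import Pool.Agent.ST.AvgOn
import Pool.Agent.ST.NotMoments
import Pool.Agent.ST.GALELT
import Pool.Agent.ST.GFin

set_option autoImplicit false

/-!
# A generic curve of genus 4 over `ℚ` whose `L`-polynomials are not distributed as in `USp(8)`

The curve is `C : y^2 = fG(x)`, where `fG` is the polynomial of degree 9 with integer coefficients
`X^9 + 63 X^8 + 252 X^7 - 28812 X^6 - 43218 X^5 - 302526 X^4 + 35294700 X^3 + 207532836 X^2 +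
2542277241 X + 8987324759`. It is generic (the endomorphism ring of its Jacobian over `ℚ̄` is `ℤ`),
but `2 a_{2,p}` is an integer for every prime `p` congruent to 17 modulo 84, so that the moments of
`a_{2,p}` cannot all converge to the moments of `c_2` on `USp(8)`, which has no atoms.

The last clause is stated for every set `P` of natural numbers which contains the good primes of the
model `y^2 = fG(x)` and finitely many other numbers and for every function `a` which has the value
`a_{2,p}` at the good primes of the model; it applies to the set of the primes of good reduction of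
the curve `C` and the coefficients `a_{2,p}` of its `L`-polynomials at these primes.
-/

namespace Pool.Agent.Results.MP_3da4c4_nt.GenusFourCounterexample

open Polynomial Pool.Agent.HyperWeil Pool.Agent.ST Filter

theorem result :
    fG.natDegree = 9 ∧ (fG.map (Int.castRingHom ℚ)).Separable ∧ STJ.IsGeneric fG ∧
    ∀ (P : Set ℕ) (a : ℕ → ℝ), (∀ p, IsGood fG p → p ∈ P ∧ a p = aCoeff fG 2 p) →
      (P \ {p | IsGood fG p}).Finite →
      ∃ m : ℕ, ¬ Tendsto (fun N => (avgOn P a m N : ℂ)) atTop (nhds (uspMoment 4 2 m)) := by
  have hdeg : 0 < fG.natDegree := by rw [natDegree_fG]; norm_num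
  refine ⟨natDegree_fG, good_fG.sep, STJ.isGeneric_of_isGeneric isGeneric_fG, fun P a hP hfin => ?_⟩
  by_contra hcon
  push Not at hcon
  exact fG_not_moments good_fG.sep
    fun m => tendsto_avgMoment_of_avgOn hdeg good_fG.sep 2 P a hP hfin m _ (hcon m)

end Pool.Agent.Results.MP_3da4c4_nt.GenusFourCounterexample
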