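import Mathlib
import Pool.Agent.HyperWeil.Defs
import Pool.Agent.HyperWeil.USp
import Pool.Agent.HyperWeil.Bessel

set_option autoImplicit false

/-!
# A Bessel inequality for the odd moments of all quadratic twists

Let `C : y^2 = f(x)` be a hyperelliptic curve of genus `g` over `ℚ` and `C_d : y^2 = d f(x)` its
quadratic twists. For odd `k` and odd `m` and any finite set `S` of squarefree integers,
`limsup_N (∑_{d ∈ S} |M_{k,m}(C_d; N) - c_k(m; g)|^2 - M_{k,2m}(C; N)) ≤ 0`.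
-/

namespace Pool.Agent.Results.MP_3da4c4_nt.TwistBessel

open Polynomial Pool.Agent.HyperWeil Filter

theorem result (g : ℕ) (hg : 1 ≤ g) (f : ℤ[X])
    (hdeg : f.natDegree = 2 * g + 1 ∨ f.natDegree = 2 * g + 2)
    (hsep : (f.map (Int.castRingHom ℚ)).Separable)
    (k m : ℕ) (hk : Odd k) (hkg : k ≤ g) (hm : Odd m)
    (S : Finset ℤ) (hS : ∀ d ∈ S, Squarefree d) (η : ℝ) (hη : 0 < η) :
    ∀ᶠ N : ℕ in atTop,
      ∑ d ∈ S, ‖(avgMoment (C d * f) k m N : ℂ) - uspMoment g k m‖ ^ 2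
        ≤ avgMoment f k (2 * m) N + η :=
  bessel_twists (by omega) hsep g hk hm S hS hη

end Pool.Agent.Results.MP_3da4c4_nt.TwistBessel
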